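import Mathlib

/-!
The major index on linear extensions of `NE_{s,2}` that avoid `123`, and the major index on
Catalan words.
-/

set_option autoImplicit false

open Polynomial Finset

namespace Pool.Agent.Results.MP_1fed52_co.MajorIndexNE

/-- The order relation of the poset `NE_{s,t}`: the element `(i-1)t+j` (with `1 ≤ i`,
`1 ≤ j ≤ t`) is below `(i'-1)t+j'` exactly when `i' ≤ i` and `j' ≤ j`. -/
def NELe (t x y : ℕ) : Prop :=
  ∃ i j i' j' : ℕ, 1 ≤ i ∧ 1 ≤ j ∧ j ≤ t ∧ 1 ≤ i' ∧ 1 ≤ j' ∧ j' ≤ t ∧
    x = (i - 1) * t + j ∧ y = (i' - 1) * t + j' ∧ i' ≤ i ∧ j' ≤ j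

/-- The major index of a word `w = w_1 ... w_m`: the sum of the `i` with `w_i > w_{i+1}`
(`w.getD i 0` is the letter `w_{i+1}`). -/
def maj (w : List ℕ) : ℕ :=
  ∑ i ∈ Finset.range (w.length - 1), if w.getD (i + 1) 0 < w.getD i 0 then i + 1 else 0

/-- `w` has no increasing subsequence of length three. -/
def Avoids123 (w : List ℕ) : Prop :=
  ¬ ∃ a b c : ℕ, a < b ∧ b < c ∧ c < w.length ∧
    w.getD a 0 < w.getD b 0 ∧ w.getD b 0 < w.getD c 0

/-- Whenever `w_a` is below `w_b` in `NE_{s,t}` and `a ≠ b`, one has `a < b`. -/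
def IsLinExt (t : ℕ) (w : List ℕ) : Prop :=
  ∀ a b : ℕ, a < w.length → b < w.length → a ≠ b →
    NELe t (w.getD a 0) (w.getD b 0) → a < b

open Classical in
/-- `NE_{s,t}(123)`: the permutations of `1, ..., st` (in one-line form, as lists) that are
linear extensions of `NE_{s,t}` and avoid `123`. -/
noncomputable def NE123 (s t : ℕ) : Finset (List ℕ) :=
  (List.range' 1 (s * t)).permutations.toFinset.filter fun w => IsLinExt t w ∧ Avoids123 w

/-- Catalan words of length `2n`: rearrangements of `1^n 2^n` such that each initial segment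
has at least as many letters `1` as letters `2`. -/
def catalanWords (n : ℕ) : Finset (List ℕ) :=
  (List.replicate n 1 ++ List.replicate n 2).permutations.toFinset.filter fun w =>
    ∀ k ≤ w.length, (w.take k).count 2 ≤ (w.take k).count 1

/-! ### The major index and appending a letter -/

lemma maj_snoc (w : List ℕ) (y x : ℕ) :
    maj (w ++ [y] ++ [x]) = maj (w ++ [y]) + if x < y then w.length + 1 else 0 := by
  unfold maj
  have h1 : (w ++ [y] ++ [x]).length - 1 = w.length + 1 := by simp
  have h2 : (w ++ [y]).length - 1 = w.length := by simp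
  rw [h1, h2, Finset.sum_range_succ]
  congr 1
  · apply Finset.sum_congr rfl
    intro i hi
    rw [Finset.mem_range] at hi
    rw [List.getD_append (w ++ [y]) [x] 0 (i + 1) (by simp; omega),
      List.getD_append (w ++ [y]) [x] 0 i (by simp; omega)]
  · rw [List.getD_append_right (w ++ [y]) [x] 0 (w.length + 1) (by simp),
      List.getD_append (w ++ [y]) [x] 0 w.length (by simp),
      List.getD_append_right w [y] 0 w.length le_rfl]
    simp

lemma maj_nil : maj [] = 0 := by simp [maj]

lemma maj_single (x : ℕ) : maj [x] = 0 := by simp [maj]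

/-! ### The linear extensions, built one letter at a time -/

/-- Initial parts of linear extensions using the `a` largest even and `b` largest odd
numbers. -/
def LEs (s : ℕ) : ℕ → ℕ → Finset (List ℕ)
  | 0, 0 => {[]}
  | a + 1, 0 => (LEs s a 0).image fun w => w ++ [2 * (s - a)]
  | 0, _ + 1 => ∅
  | a + 1, b + 1 =>
    if b ≤ a then
      ((LEs s a (b + 1)).image fun w => w ++ [2 * (s - a)]) ∪
        ((LEs s (a + 1) b).image fun w => w ++ [2 * (s - b) - 1])
    else ∅
  termination_by a b => a + b

/-- The `a` largest even numbers. -/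
def evs (s a : ℕ) : List ℕ := (List.range a).map fun i => 2 * (s - i)

/-- The `b` largest odd numbers. -/
def ods (s b : ℕ) : List ℕ := (List.range b).map fun i => 2 * (s - i) - 1

lemma mem_evs {s a x : ℕ} : x ∈ evs s a ↔ ∃ i < a, 2 * (s - i) = x := by simp [evs]

lemma mem_ods {s b x : ℕ} : x ∈ ods s b ↔ ∃ i < b, 2 * (s - i) - 1 = x := by simp [ods]

lemma evs_succ (s a : ℕ) : evs s (a + 1) = evs s a ++ [2 * (s - a)] := by
  simp [evs, List.range_succ]

lemma ods_succ (s b : ℕ) : ods s (b + 1) = ods s b ++ [2 * (s - b) - 1] := by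
  simp [ods, List.range_succ]

lemma NELe_two {x y : ℕ} (hx : 1 ≤ x) (hy : 1 ≤ y) :
    NELe 2 x y ↔ (y + 1) / 2 ≤ (x + 1) / 2 ∧ (y % 2 = 0 → x % 2 = 0) := by
  constructor
  · rintro ⟨i, j, i', j', hi, hj, hj2, hi', hj', hj'2, rfl, rfl, h1, h2⟩
    constructor
    · omega
    · omega
  · rintro ⟨h1, h2⟩
    refine ⟨(x + 1) / 2, 2 - x % 2, (y + 1) / 2, 2 - y % 2, ?_, ?_, ?_, ?_, ?_, ?_, ?_, ?_, h1, ?_⟩
    all_goals omega

/-- The relation that must hold between an earlier entry `x` and a later entry `y`. -/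
abbrev Rel (x y : ℕ) : Prop := ¬ NELe 2 y x

lemma perm_evs_snoc (s a b : ℕ) :
    (evs s (a + 1) ++ ods s b).Perm ((evs s a ++ ods s b) ++ [2 * (s - a)]) := by
  rw [evs_succ, List.append_assoc, List.append_assoc]
  exact List.Perm.append_left _ List.perm_append_comm

lemma perm_ods_snoc (s a b : ℕ) :
    (evs s a ++ ods s (b + 1)).Perm ((evs s a ++ ods s b) ++ [2 * (s - b) - 1]) := by
  rw [ods_succ, List.append_assoc]

lemma pairwise_snoc {w : List ℕ} {x : ℕ} :
    (w ++ [x]).Pairwise Rel ↔ w.Pairwise Rel ∧ ∀ y ∈ w, Rel y x := by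
  rw [List.pairwise_append]
  simp

/-- Good lists: rearrangements with the linear extension property. -/
def Good (s a b : ℕ) (w : List ℕ) : Prop :=
  w.Perm (evs s a ++ ods s b) ∧ w.Pairwise Rel

lemma good_snoc_even {s a b : ℕ} {w : List ℕ} (ha : a + 1 ≤ s) (hb : b ≤ a) :
    Good s (a + 1) b (w ++ [2 * (s - a)]) ↔ Good s a b w := by
  unfold Good
  constructor
  · rintro ⟨h1, h2⟩
    refine ⟨?_, (pairwise_snoc.1 h2).1⟩
    have := h1.trans (perm_evs_snoc s a b)
    exact (List.perm_append_right_iff _).1 this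
  · rintro ⟨h1, h2⟩
    refine ⟨(List.Perm.append_right _ h1).trans (perm_evs_snoc s a b).symm, ?_⟩
    refine pairwise_snoc.2 ⟨h2, ?_⟩
    intro y hy
    have hy' := h1.mem_iff.1 hy
    rw [List.mem_append, mem_evs, mem_ods] at hy'
    intro hN
    rcases hy' with ⟨i, hi, rfl⟩ | ⟨i, hi, rfl⟩
    · rw [NELe_two (by omega) (by omega)] at hN
      omega
    · rw [NELe_two (by omega) (by omega)] at hN
      omega

lemma good_snoc_odd {s a b : ℕ} {w : List ℕ} (ha : a ≤ s) (hb : b + 1 ≤ a) :
    Good s a (b + 1) (w ++ [2 * (s - b) - 1]) ↔ Good s a b w := by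
  unfold Good
  constructor
  · rintro ⟨h1, h2⟩
    refine ⟨?_, (pairwise_snoc.1 h2).1⟩
    have := h1.trans (perm_ods_snoc s a b)
    exact (List.perm_append_right_iff _).1 this
  · rintro ⟨h1, h2⟩
    refine ⟨(List.Perm.append_right _ h1).trans (perm_ods_snoc s a b).symm, ?_⟩
    refine pairwise_snoc.2 ⟨h2, ?_⟩
    intro y hy
    have hy' := h1.mem_iff.1 hy
    rw [List.mem_append, mem_evs, mem_ods] at hy'
    intro hN
    rcases hy' with ⟨i, hi, rfl⟩ | ⟨i, hi, rfl⟩
    · rw [NELe_two (by omega) (by omega)] at hN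
      omega
    · rw [NELe_two (by omega) (by omega)] at hN
      omega

lemma good_last {s a b : ℕ} {w : List ℕ} {x : ℕ} (ha : a ≤ s) (hb : b ≤ a)
    (h : Good s a b (w ++ [x])) :
    (1 ≤ a ∧ b ≤ a - 1 ∧ x = 2 * (s - (a - 1))) ∨ (1 ≤ b ∧ x = 2 * (s - (b - 1)) - 1) := by
  obtain ⟨h1, h2⟩ := h
  have hx : x ∈ evs s a ++ ods s b := h1.mem_iff.1 (by simp)
  have hlast := (pairwise_snoc.1 h2).2
  rw [List.mem_append, mem_evs, mem_ods] at hx
  have key : ∀ z, z ∈ evs s a ++ ods s b → z ≠ x → ¬ NELe 2 x z := by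
    intro z hz hzx
    have : z ∈ w ++ [x] := h1.mem_iff.2 hz
    rw [List.mem_append, List.mem_singleton] at this
    rcases this with h | h
    · exact hlast z h
    · exact absurd h hzx
  rcases hx with ⟨i, hi, hix⟩ | ⟨i, hi, hix⟩
  · left
    have hia : i = a - 1 := by
      by_contra hne
      have hz : 2 * (s - (a - 1)) ∈ evs s a ++ ods s b := by
        rw [List.mem_append, mem_evs]; left; exact ⟨a - 1, by omega, rfl⟩
      refine key _ hz (by omega) ?_
      rw [NELe_two (by omega) (by omega)]
      omega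
    refine ⟨by omega, ?_, by rw [← hix, hia]⟩
    by_contra hne
    have hz : 2 * (s - (a - 1)) - 1 ∈ evs s a ++ ods s b := by
      rw [List.mem_append, mem_ods]; right; exact ⟨a - 1, by omega, rfl⟩
    refine key _ hz (by omega) ?_
    rw [NELe_two (by omega) (by omega)]
    omega
  · right
    have hib : i = b - 1 := by
      by_contra hne
      have hz : 2 * (s - (b - 1)) - 1 ∈ evs s a ++ ods s b := by
        rw [List.mem_append, mem_ods]; right; exact ⟨b - 1, by omega, rfl⟩
      refine key _ hz (by omega) ?_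
      rw [NELe_two (by omega) (by omega)]
      omega
    exact ⟨by omega, by rw [← hix, hib]⟩

lemma mem_LEs (s : ℕ) : ∀ n a b : ℕ, a + b = n → a ≤ s → ∀ w : List ℕ,
    w ∈ LEs s a b ↔ b ≤ a ∧ Good s a b w := by
  intro n
  induction n using Nat.strong_induction_on with
  | _ n ih =>
    intro a b hab ha w
    match a, b with
    | 0, 0 =>
      rw [LEs]
      simp only [Finset.mem_singleton, le_refl, true_and, Good, evs, ods, List.range_zero,
        List.map_nil, List.append_nil, List.perm_nil]
      constructor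
      · rintro rfl; simp
      · exact fun h => h.1
    | 0, b + 1 =>
      rw [LEs]
      simp
    | a + 1, 0 =>
      rw [LEs, Finset.mem_image]
      constructor
      · rintro ⟨v, hv, rfl⟩
        rw [ih (a + 0) (by omega) a 0 rfl (by omega)] at hv
        exact ⟨by omega, (good_snoc_even ha (Nat.zero_le a)).2 hv.2⟩
      · rintro ⟨-, hg⟩
        rcases List.eq_nil_or_concat w with rfl | ⟨v, x, rfl⟩
        · exfalso
          have := hg.1.length_eq
          simp [evs, ods] at this
        · rw [List.concat_eq_append] at hg ⊢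
          rcases good_last ha (Nat.zero_le _) hg with ⟨_, _, hx⟩ | ⟨h0, _⟩
          · rw [Nat.add_sub_cancel] at hx
            subst hx
            refine ⟨v, ?_, rfl⟩
            rw [ih (a + 0) (by omega) a 0 rfl (by omega)]
            exact ⟨Nat.zero_le _, (good_snoc_even ha (Nat.zero_le a)).1 hg⟩
          · omega
    | a + 1, b + 1 =>
      rw [LEs]
      split_ifs with hba
      · rw [Finset.mem_union, Finset.mem_image, Finset.mem_image]
        constructor
        · rintro (⟨v, hv, rfl⟩ | ⟨v, hv, rfl⟩)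
          · rw [ih (a + (b + 1)) (by omega) a (b + 1) rfl (by omega)] at hv
            exact ⟨by omega, (good_snoc_even ha hv.1).2 hv.2⟩
          · rw [ih (a + 1 + b) (by omega) (a + 1) b rfl ha] at hv
            exact ⟨by omega, (good_snoc_odd ha (by omega)).2 hv.2⟩
        · rintro ⟨_, hg⟩
          rcases List.eq_nil_or_concat w with rfl | ⟨v, x, rfl⟩
          · exfalso
            have := hg.1.length_eq
            simp [evs, ods] at this
          · rw [List.concat_eq_append] at hg ⊢
            rcases good_last ha (by omega) hg with ⟨_, hb1, hx⟩ | ⟨_, hx⟩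
            · left
              rw [Nat.add_sub_cancel] at hx hb1
              subst hx
              refine ⟨v, ?_, rfl⟩
              rw [ih (a + (b + 1)) (by omega) a (b + 1) rfl (by omega)]
              exact ⟨hb1, (good_snoc_even ha hb1).1 hg⟩
            · right
              rw [Nat.add_sub_cancel] at hx
              subst hx
              refine ⟨v, ?_, rfl⟩
              rw [ih (a + 1 + b) (by omega) (a + 1) b rfl ha]
              exact ⟨by omega, (good_snoc_odd ha (by omega)).1 hg⟩
      · simp only [Finset.notMem_empty, false_iff]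
        omega

lemma snoc_injective (x : ℕ) : Function.Injective fun w : List ℕ => w ++ [x] := by
  intro v w h
  exact List.append_cancel_right h

lemma disjoint_snoc (A B : Finset (List ℕ)) {x y : ℕ} (h : x ≠ y) :
    Disjoint (A.image fun w => w ++ [x]) (B.image fun w => w ++ [y]) := by
  rw [Finset.disjoint_left]
  intro w hw hw'
  rw [Finset.mem_image] at hw hw'
  obtain ⟨u, _, rfl⟩ := hw
  obtain ⟨v, _, hv⟩ := hw'
  have := congrArg List.getLast? hv
  simp at this
  exact h this.symm

section sums

variable {R : Type*} [CommRing R] (q : R)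

/-- Generating function of the partial linear extensions. -/
def S (s a b : ℕ) : R := ∑ w ∈ LEs s a b, q ^ maj w

lemma length_of_good {s a b : ℕ} {w : List ℕ} (h : Good s a b w) : w.length = a + b := by
  rw [h.1.length_eq]; simp [evs, ods]

lemma sum_even {s a b : ℕ} (ha : a + 1 ≤ s) (hb : b ≤ a) :
    ∑ w ∈ LEs s a b, q ^ maj (w ++ [2 * (s - a)]) = q ^ (a + b) * S q s a b := by
  unfold S
  rw [Finset.mul_sum]
  apply Finset.sum_congr rfl
  intro w hw
  rw [mem_LEs s (a + b) a b rfl (by omega)] at hw
  have hl := length_of_good hw.2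
  rcases List.eq_nil_or_concat w with rfl | ⟨v, y, rfl⟩
  · simp only [List.length_nil] at hl
    rw [List.nil_append, maj_single, maj_nil, ← hl]
    simp
  · rw [List.concat_eq_append] at hw hl ⊢
    rw [maj_snoc]
    have hy : y ∈ evs s a ++ ods s b := hw.2.1.mem_iff.1 (by simp)
    rw [List.mem_append, mem_evs, mem_ods] at hy
    have hlt : 2 * (s - a) < y := by
      rcases hy with ⟨i, hi, rfl⟩ | ⟨i, hi, rfl⟩ <;> omega
    rw [if_pos hlt, pow_add, mul_comm]
    congr 2
    simp at hl
    omega

lemma S_even_zero {s a : ℕ} (ha : a + 1 ≤ s) : S q s (a + 1) 0 = q ^ a * S q s a 0 := by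
  have := sum_even q ha (Nat.zero_le a)
  rw [Nat.add_zero] at this
  rw [← this, S, LEs, Finset.sum_image (fun _ _ _ _ h => snoc_injective _ h)]

lemma S_succ_succ {s a b : ℕ} (hb : b ≤ a) (hs : a + 1 ≤ s) :
    S q s (a + 1) (b + 1) = ∑ w ∈ LEs s a (b + 1), q ^ maj (w ++ [2 * (s - a)]) +
      ∑ w ∈ LEs s (a + 1) b, q ^ maj (w ++ [2 * (s - b) - 1]) := by
  rw [S, LEs, if_pos hb, Finset.sum_union (disjoint_snoc _ _ (by omega)),
    Finset.sum_image (fun _ _ _ _ h => snoc_injective _ h),
    Finset.sum_image (fun _ _ _ _ h => snoc_injective _ h)]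

lemma length_LEs {s a b : ℕ} (ha : a ≤ s) {w : List ℕ} (hw : w ∈ LEs s a b) :
    w.length = a + b :=
  length_of_good ((mem_LEs s (a + b) a b rfl ha w).1 hw).2

lemma sum_odd {s a b : ℕ} (ha : a + 1 ≤ s) (hb : b ≤ a) :
    ∑ w ∈ LEs s (a + 1) b, q ^ maj (w ++ [2 * (s - b) - 1]) =
      q ^ (a + b + 1) * S q s (a + 1) b +
        if a = b then 0 else (1 - q ^ (a + b + 1)) * (q ^ (a + b) * S q s a b) := by
  have hE : ∀ w ∈ LEs s a b, q ^ maj (w ++ [2 * (s - a)] ++ [2 * (s - b) - 1]) =
      q ^ (a + b + 1) * q ^ maj (w ++ [2 * (s - a)]) +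
        if a = b then 0 else (1 - q ^ (a + b + 1)) * q ^ maj (w ++ [2 * (s - a)]) := by
    intro w hw
    rw [maj_snoc, length_LEs (by omega) hw]
    by_cases hab : a = b
    · rw [if_pos hab, if_pos (by omega), pow_add]
      ring
    · rw [if_neg hab, if_neg (by omega)]
      ring
  rw [← sum_even q ha hb]
  match b with
  | 0 =>
    rw [S, LEs, Finset.sum_image (fun _ _ _ _ h => snoc_injective _ h),
      Finset.sum_image (fun _ _ _ _ h => snoc_injective _ h), Finset.sum_congr rfl hE,
      Finset.sum_add_distrib, ← Finset.mul_sum]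
    by_cases hab : a = 0
    · simp [hab]
    · simp only [if_neg hab, Finset.mul_sum]
  | c + 1 =>
    have hcs : c ≤ a := by omega
    have h1 : ∑ w ∈ LEs s (a + 1) (c + 1), q ^ maj (w ++ [2 * (s - (c + 1)) - 1]) =
        ∑ w ∈ LEs s a (c + 1), q ^ maj (w ++ [2 * (s - a)] ++ [2 * (s - (c + 1)) - 1]) +
        ∑ w ∈ LEs s (a + 1) c,
          q ^ maj (w ++ [2 * (s - c) - 1] ++ [2 * (s - (c + 1)) - 1]) := by
      rw [LEs, if_pos hcs, Finset.sum_union (disjoint_snoc _ _ (by omega)),
        Finset.sum_image (fun _ _ _ _ h => snoc_injective _ h),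
        Finset.sum_image (fun _ _ _ _ h => snoc_injective _ h)]
    have hO : ∀ w ∈ LEs s (a + 1) c,
        q ^ maj (w ++ [2 * (s - c) - 1] ++ [2 * (s - (c + 1)) - 1]) =
        q ^ (a + (c + 1) + 1) * q ^ maj (w ++ [2 * (s - c) - 1]) := by
      intro w hw
      rw [maj_snoc, length_LEs ha hw, if_pos (by omega), pow_add]
      have : a + 1 + c + 1 = a + (c + 1) + 1 := by omega
      rw [this]
      ring
    rw [h1, S_succ_succ q hcs ha, Finset.sum_congr rfl hE, Finset.sum_congr rfl hO,
      Finset.sum_add_distrib, ← Finset.mul_sum, ← Finset.mul_sum]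
    by_cases hab : a = c + 1
    · simp only [if_pos hab, Finset.sum_const_zero]
      ring
    · simp only [if_neg hab, ← Finset.mul_sum]
      ring

/-- The product `(1-q)(1-q^2)...(1-q^n)`. -/
def pp (n : ℕ) : R := ∏ i ∈ Finset.range n, (1 - q ^ (i + 1))

lemma pp_succ (n : ℕ) : pp q (n + 1) = pp q n * (1 - q ^ (n + 1)) := by
  rw [pp, Finset.prod_range_succ]; rfl

/-- The exponent `C(a,2) + C(b,2)`. -/
def ex (a b : ℕ) : ℕ := a.choose 2 + b.choose 2

lemma choose_two_succ (a : ℕ) : (a + 1).choose 2 = a.choose 2 + a := by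
  have h := Nat.choose_succ_succ' a 1
  rw [Nat.choose_one_right] at h
  have e : (1 + 1 : ℕ) = 2 := rfl
  rw [e] at h
  omega

lemma S_closed (s : ℕ) : ∀ n a b : ℕ, a + b = n → b ≤ a → a ≤ s →
    pp q (a + 1) * pp q b * S q s a b =
      q ^ ex a b * (pp q (a + b) * (1 - q ^ (a + 1) - q ^ (a - b) + q ^ a)) := by
  intro n
  induction n using Nat.strong_induction_on with
  | _ n ih =>
    intro a b hab hba has
    match a, b with
    | 0, 0 =>
      simp [S, LEs, maj_nil, pp, ex]
      ring
    | 0, b + 1 => omega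
    | a + 1, 0 =>
      have h := ih (a + 0) (by omega) a 0 rfl (Nat.zero_le _) (by omega)
      rw [S_even_zero q has]
      simp only [ex, choose_two_succ, Nat.choose_zero_succ, Nat.add_zero, Nat.sub_zero,
        pp_succ] at h ⊢
      have hp0 : pp q 0 = 1 := by simp [pp]
      rw [hp0] at h ⊢
      rw [pow_add]
      linear_combination (1 - q ^ (a + 1 + 1)) * q ^ a * h
    | a + 1, b + 1 =>
      have hba' : b ≤ a := by omega
      rw [S_succ_succ q hba' has, sum_odd q has hba']
      have hO := ih (a + 1 + b) (by omega) (a + 1) b rfl (by omega) has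
      by_cases hab' : a = b
      · subst hab'
        have hempty : LEs s a (a + 1) = ∅ := by
          ext w
          rw [mem_LEs s (a + (a + 1)) a (a + 1) rfl (by omega)]
          simp
        rw [hempty, Finset.sum_empty, if_pos rfl]
        have e1 : a + 1 - a = 1 := by omega
        have e2 : a + 1 - (a + 1) = 0 := by omega
        have e3 : a + 1 + (a + 1) = (a + 1 + a) + 1 := by omega
        rw [e1] at hO
        rw [e2, e3]
        simp only [ex, choose_two_succ, pp_succ] at hO ⊢
        have e4 : a + a + 1 = a + 1 + a := by omega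
        rw [e4]
        linear_combination (1 - q ^ (a + 1)) * q ^ (a + 1 + a) * hO
      · have hlt : b + 1 ≤ a := by omega
        rw [sum_even q (by omega) hlt, if_neg hab']
        have hE := ih (a + (b + 1)) (by omega) a (b + 1) rfl hlt (by omega)
        have hD := ih (a + b) (by omega) a b rfl hba' (by omega)
        obtain ⟨c, rfl⟩ : ∃ c, a = b + 1 + c := ⟨a - b - 1, by omega⟩
        have e1 : b + 1 + c + 1 - (b + 1) = c + 1 := by omega
        have e2 : b + 1 + c + 1 - b = c + 2 := by omega
        have e3 : b + 1 + c - (b + 1) = c := by omega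
        have e4 : b + 1 + c - b = c + 1 := by omega
        rw [e3] at hE
        rw [e2] at hO
        rw [e4] at hD
        rw [e1]
        have e5 : b + 1 + c + 1 + (b + 1) = (b + 1 + c + b) + 1 + 1 := by omega
        have e6 : b + 1 + c + (b + 1) = (b + 1 + c + b) + 1 := by omega
        have e7 : b + 1 + c + 1 + b = (b + 1 + c + b) + 1 := by omega
        rw [e5]
        rw [e6] at hE ⊢
        rw [e7] at hO
        simp only [ex, choose_two_succ, pp_succ] at hE hO hD ⊢
        linear_combination (1 - q ^ (b + 1 + c + 1 + 1)) * q ^ (b + 1 + c + b + 1) * hE +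
          (1 - q ^ (b + 1)) * q ^ (b + 1 + c + b + 1) * hO +
          (1 - q ^ (b + 1 + c + 1 + 1)) * (1 - q ^ (b + 1)) *
            (1 - q ^ (b + 1 + c + b + 1)) * q ^ (b + 1 + c + b) * hD

end sums

/-! ### The Catalan words, built one letter at a time -/

/-- Initial parts of Catalan words with `a` letters `1` and `b` letters `2`. -/
def Ws : ℕ → ℕ → Finset (List ℕ)
  | 0, 0 => {[]}
  | a + 1, 0 => (Ws a 0).image fun w => w ++ [1]
  | 0, _ + 1 => ∅
  | a + 1, b + 1 =>
    if b ≤ a then
      ((Ws a (b + 1)).image fun w => w ++ [1]) ∪ ((Ws (a + 1) b).image fun w => w ++ [2])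
    else ∅
  termination_by a b => a + b

/-- Each initial segment of `w` has at least as many letters `1` as letters `2`. -/
def Ballot (w : List ℕ) : Prop := ∀ k ≤ w.length, (w.take k).count 2 ≤ (w.take k).count 1

lemma ballot_snoc {w : List ℕ} {x : ℕ} :
    Ballot (w ++ [x]) ↔ Ballot w ∧ (w ++ [x]).count 2 ≤ (w ++ [x]).count 1 := by
  constructor
  · intro h
    refine ⟨fun k hk => ?_, ?_⟩
    · have := h k (by simp; omega)
      rwa [List.take_append_of_le_length hk] at this
    · have := h (w ++ [x]).length le_rfl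
      rwa [List.take_length] at this
  · rintro ⟨h1, h2⟩ k hk
    rcases Nat.lt_or_ge w.length k with hlt | hle
    · have : (w ++ [x]).length ≤ k := by simp; omega
      rwa [List.take_of_length_le this]
    · rw [List.take_append_of_le_length hle]
      exact h1 k hle

lemma perm_one_snoc (a b : ℕ) :
    (List.replicate (a + 1) 1 ++ List.replicate b 2).Perm
      ((List.replicate a 1 ++ List.replicate b 2) ++ [1]) := by
  rw [List.replicate_succ', List.append_assoc, List.append_assoc]
  exact List.Perm.append_left _ List.perm_append_comm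

lemma perm_two_snoc (a b : ℕ) :
    (List.replicate a 1 ++ List.replicate (b + 1) 2).Perm
      ((List.replicate a 1 ++ List.replicate b 2) ++ [2]) := by
  rw [List.replicate_succ', List.append_assoc]

/-- Good words: rearrangements of `1^a 2^b` with the ballot property. -/
def GoodW (a b : ℕ) (w : List ℕ) : Prop :=
  w.Perm (List.replicate a 1 ++ List.replicate b 2) ∧ Ballot w

lemma goodW_snoc_one {a b : ℕ} {w : List ℕ} (hb : b ≤ a) :
    GoodW (a + 1) b (w ++ [1]) ↔ GoodW a b w := by
  unfold GoodW
  rw [ballot_snoc]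
  constructor
  · rintro ⟨h1, h2, _⟩
    exact ⟨(List.perm_append_right_iff _).1 (h1.trans (perm_one_snoc a b)), h2⟩
  · rintro ⟨h1, h2⟩
    have h3 := (List.Perm.append_right [1] h1).trans (perm_one_snoc a b).symm
    refine ⟨h3, h2, ?_⟩
    rw [h3.count_eq, h3.count_eq]
    simp [List.count_append, List.count_replicate]
    omega

lemma goodW_snoc_two {a b : ℕ} {w : List ℕ} (hb : b + 1 ≤ a) :
    GoodW a (b + 1) (w ++ [2]) ↔ GoodW a b w := by
  unfold GoodW
  rw [ballot_snoc]
  constructor
  · rintro ⟨h1, h2, _⟩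
    exact ⟨(List.perm_append_right_iff _).1 (h1.trans (perm_two_snoc a b)), h2⟩
  · rintro ⟨h1, h2⟩
    have h3 := (List.Perm.append_right [2] h1).trans (perm_two_snoc a b).symm
    refine ⟨h3, h2, ?_⟩
    rw [h3.count_eq, h3.count_eq]
    simp [List.count_append, List.count_replicate]
    omega

lemma goodW_last {a b : ℕ} {w : List ℕ} {x : ℕ} (h : GoodW a b (w ++ [x])) :
    (1 ≤ a ∧ b ≤ a - 1 ∧ x = 1) ∨ (1 ≤ b ∧ x = 2) := by
  obtain ⟨h1, h2⟩ := h
  have hx : x ∈ List.replicate a 1 ++ List.replicate b 2 := h1.mem_iff.1 (by simp)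
  rw [List.mem_append, List.mem_replicate, List.mem_replicate] at hx
  rcases hx with ⟨ha, rfl⟩ | ⟨hb, rfl⟩
  · left
    refine ⟨by omega, ?_, rfl⟩
    have h3 := h2 w.length (by simp)
    rw [List.take_append_of_le_length le_rfl, List.take_length] at h3
    have c1 := h1.count_eq 1
    have c2 := h1.count_eq 2
    simp [List.count_append, List.count_replicate] at c1 c2
    omega
  · right
    exact ⟨by omega, rfl⟩

lemma mem_Ws : ∀ n a b : ℕ, a + b = n → ∀ w : List ℕ,
    w ∈ Ws a b ↔ b ≤ a ∧ GoodW a b w := by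
  intro n
  induction n using Nat.strong_induction_on with
  | _ n ih =>
    intro a b hab w
    match a, b with
    | 0, 0 =>
      rw [Ws]
      simp only [Finset.mem_singleton, le_refl, true_and, GoodW, List.replicate_zero,
        List.append_nil, List.perm_nil]
      constructor
      · rintro rfl; simp [Ballot]
      · exact fun h => h.1
    | 0, b + 1 =>
      rw [Ws]
      simp
    | a + 1, 0 =>
      rw [Ws, Finset.mem_image]
      constructor
      · rintro ⟨v, hv, rfl⟩
        rw [ih (a + 0) (by omega) a 0 rfl] at hv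
        exact ⟨by omega, (goodW_snoc_one (Nat.zero_le a)).2 hv.2⟩
      · rintro ⟨-, hg⟩
        rcases List.eq_nil_or_concat w with rfl | ⟨v, x, rfl⟩
        · exfalso
          have := hg.1.length_eq
          simp at this
        · rw [List.concat_eq_append] at hg ⊢
          rcases goodW_last hg with ⟨_, _, hx⟩ | ⟨h0, _⟩
          · subst hx
            refine ⟨v, ?_, rfl⟩
            rw [ih (a + 0) (by omega) a 0 rfl]
            exact ⟨Nat.zero_le _, (goodW_snoc_one (Nat.zero_le a)).1 hg⟩
          · omega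
    | a + 1, b + 1 =>
      rw [Ws]
      split_ifs with hba
      · rw [Finset.mem_union, Finset.mem_image, Finset.mem_image]
        constructor
        · rintro (⟨v, hv, rfl⟩ | ⟨v, hv, rfl⟩)
          · rw [ih (a + (b + 1)) (by omega) a (b + 1) rfl] at hv
            exact ⟨by omega, (goodW_snoc_one hv.1).2 hv.2⟩
          · rw [ih (a + 1 + b) (by omega) (a + 1) b rfl] at hv
            exact ⟨by omega, (goodW_snoc_two (by omega)).2 hv.2⟩
        · rintro ⟨_, hg⟩
          rcases List.eq_nil_or_concat w with rfl | ⟨v, x, rfl⟩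
          · exfalso
            have := hg.1.length_eq
            simp at this
          · rw [List.concat_eq_append] at hg ⊢
            rcases goodW_last hg with ⟨_, hb1, hx⟩ | ⟨_, hx⟩
            · left
              rw [Nat.add_sub_cancel] at hb1
              subst hx
              refine ⟨v, ?_, rfl⟩
              rw [ih (a + (b + 1)) (by omega) a (b + 1) rfl]
              exact ⟨hb1, (goodW_snoc_one hb1).1 hg⟩
            · right
              subst hx
              refine ⟨v, ?_, rfl⟩
              rw [ih (a + 1 + b) (by omega) (a + 1) b rfl]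
              exact ⟨by omega, (goodW_snoc_two (by omega)).1 hg⟩
      · simp only [Finset.notMem_empty, false_iff]
        omega

lemma length_Ws {a b : ℕ} {w : List ℕ} (hw : w ∈ Ws a b) : w.length = a + b := by
  rw [((mem_Ws (a + b) a b rfl w).1 hw).2.1.length_eq]; simp

section sumsW

variable {R : Type*} [CommRing R] (q : R)

/-- Generating function of the partial Catalan words. -/
def T (a b : ℕ) : R := ∑ w ∈ Ws a b, q ^ maj w

lemma maj_snoc_two {a b : ℕ} {w : List ℕ} (hw : w ∈ Ws a b) : maj (w ++ [2]) = maj w := by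
  rcases List.eq_nil_or_concat w with rfl | ⟨v, y, rfl⟩
  · simp [maj]
  · rw [List.concat_eq_append] at hw ⊢
    rw [maj_snoc]
    have hg := ((mem_Ws (a + b) a b rfl _).1 hw).2
    rcases goodW_last hg with ⟨_, _, hx⟩ | ⟨_, hx⟩ <;> subst hx <;> simp

lemma sum_two (a b : ℕ) : ∑ w ∈ Ws a b, q ^ maj (w ++ [2]) = T q a b := by
  apply Finset.sum_congr rfl
  intro w hw
  rw [maj_snoc_two hw]

lemma maj_one_one (w : List ℕ) : maj (w ++ [1] ++ [1]) = maj (w ++ [1]) := by
  rw [maj_snoc]; simp

lemma T_succ_succ {a b : ℕ} (hb : b ≤ a) :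
    T q (a + 1) (b + 1) = ∑ w ∈ Ws a (b + 1), q ^ maj (w ++ [1]) +
      ∑ w ∈ Ws (a + 1) b, q ^ maj (w ++ [2]) := by
  rw [T, Ws, if_pos hb, Finset.sum_union (disjoint_snoc _ _ (by omega)),
    Finset.sum_image (fun _ _ _ _ h => snoc_injective _ h),
    Finset.sum_image (fun _ _ _ _ h => snoc_injective _ h)]

lemma sum_one_zero (a : ℕ) : ∑ w ∈ Ws a 0, q ^ maj (w ++ [1]) = T q a 0 := by
  match a with
  | 0 => simp [T, Ws, maj_single, maj_nil]
  | a + 1 =>
    rw [T, Ws, Finset.sum_image (fun _ _ _ _ h => snoc_injective _ h),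
      Finset.sum_image (fun _ _ _ _ h => snoc_injective _ h)]
    apply Finset.sum_congr rfl
    intro w _
    rw [maj_one_one]

lemma sum_one_succ {a b : ℕ} (hb : b + 1 ≤ a) :
    ∑ w ∈ Ws a (b + 1), q ^ maj (w ++ [1]) =
      T q a (b + 1) + (q ^ (a + b + 1) - 1) * T q a b := by
  match a with
  | 0 => omega
  | a + 1 =>
    have hba : b ≤ a := by omega
    have h1 : ∑ w ∈ Ws (a + 1) (b + 1), q ^ maj (w ++ [1]) =
        ∑ w ∈ Ws a (b + 1), q ^ maj (w ++ [1] ++ [1]) +
        ∑ w ∈ Ws (a + 1) b, q ^ maj (w ++ [2] ++ [1]) := by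
      rw [Ws, if_pos hba, Finset.sum_union (disjoint_snoc _ _ (by omega)),
        Finset.sum_image (fun _ _ _ _ h => snoc_injective _ h),
        Finset.sum_image (fun _ _ _ _ h => snoc_injective _ h)]
    have h2 : ∑ w ∈ Ws a (b + 1), q ^ maj (w ++ [1] ++ [1]) =
        ∑ w ∈ Ws a (b + 1), q ^ maj (w ++ [1]) := by
      apply Finset.sum_congr rfl
      intro w _
      rw [maj_one_one]
    have h3 : ∑ w ∈ Ws (a + 1) b, q ^ maj (w ++ [2] ++ [1]) =
        q ^ (a + 1 + b + 1) * T q (a + 1) b := by
      rw [T, Finset.mul_sum]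
      apply Finset.sum_congr rfl
      intro w hw
      rw [maj_snoc, if_pos (by norm_num), maj_snoc_two hw, length_Ws hw, pow_add]
      ring
    rw [h1, h2, h3, T_succ_succ q hba, sum_two]
    ring

lemma T_closed : ∀ n a b : ℕ, a + b = n → b ≤ a →
    pp q (a + 1) * pp q b * T q a b =
      pp q (a + b) * (1 - q - q ^ (a + 1) + q ^ (b + 1)) := by
  intro n
  induction n using Nat.strong_induction_on with
  | _ n ih =>
    intro a b hab hba
    match a, b with
    | 0, 0 =>
      simp [T, Ws, maj_nil, pp]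
    | 0, b + 1 => omega
    | a + 1, 0 =>
      have h := ih (a + 0) (by omega) a 0 rfl (Nat.zero_le _)
      have h1 : T q (a + 1) 0 = T q a 0 := by
        rw [← sum_one_zero q a, T, Ws,
          Finset.sum_image (fun _ _ _ _ h => snoc_injective _ h)]
      rw [h1]
      simp only [Nat.add_zero, pp_succ] at h ⊢
      linear_combination (1 - q ^ (a + 1 + 1)) * h
    | a + 1, b + 1 =>
      have hba' : b ≤ a := by omega
      rw [T_succ_succ q hba', sum_two]
      have hO := ih (a + 1 + b) (by omega) (a + 1) b rfl (by omega)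
      by_cases hab' : a = b
      · subst hab'
        have hempty : Ws a (a + 1) = ∅ := by
          ext w
          rw [mem_Ws (a + (a + 1)) a (a + 1) rfl]
          simp
        rw [hempty, Finset.sum_empty]
        have e3 : a + 1 + (a + 1) = (a + 1 + a) + 1 := by omega
        rw [e3]
        simp only [pp_succ] at hO ⊢
        linear_combination (1 - q ^ (a + 1)) * hO
      · have hlt : b + 1 ≤ a := by omega
        rw [sum_one_succ q hlt]
        have hE := ih (a + (b + 1)) (by omega) a (b + 1) rfl hlt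
        have hD := ih (a + b) (by omega) a b rfl hba'
        have e5 : a + 1 + (b + 1) = (a + b) + 1 + 1 := by omega
        have e6 : a + (b + 1) = (a + b) + 1 := by omega
        have e7 : a + 1 + b = (a + b) + 1 := by omega
        rw [e5]
        rw [e6] at hE
        rw [e7] at hO
        simp only [pp_succ] at hE hO hD ⊢
        linear_combination (1 - q ^ (a + 1 + 1)) * hE + (1 - q ^ (b + 1)) * hO +
          (1 - q ^ (a + 1 + 1)) * (1 - q ^ (b + 1)) * (q ^ (a + b + 1) - 1) * hD

end sumsW

/-! ### The two families in terms of the recursive descriptions -/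

lemma range_perm (s : ℕ) : (List.range' 1 (s * 2)).Perm (evs s s ++ ods s s) := by
  rw [List.perm_ext_iff_of_nodup List.nodup_range']
  · intro x
    rw [List.mem_append, mem_evs, mem_ods, List.mem_range'_1]
    constructor
    · rintro ⟨h1, h2⟩
      rcases Nat.even_or_odd' x with ⟨k, rfl | rfl⟩
      · left
        exact ⟨s - k, by omega, by omega⟩
      · right
        exact ⟨s - (k + 1), by omega, by omega⟩
    · rintro (⟨i, hi, rfl⟩ | ⟨i, hi, rfl⟩) <;> omega
  · rw [List.nodup_append]
    refine ⟨?_, ?_, ?_⟩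
    · unfold evs
      refine List.Nodup.map_on ?_ List.nodup_range
      intro i hi j hj h
      rw [List.mem_range] at hi hj
      omega
    · unfold ods
      refine List.Nodup.map_on ?_ List.nodup_range
      intro i hi j hj h
      rw [List.mem_range] at hi hj
      omega
    · intro x hx y hy
      rw [mem_evs] at hx
      rw [mem_ods] at hy
      obtain ⟨i, hi, rfl⟩ := hx
      obtain ⟨j, hj, rfl⟩ := hy
      omega

lemma isLinExt_iff (w : List ℕ) : IsLinExt 2 w ↔ w.Pairwise Rel := by
  rw [List.pairwise_iff_getElem]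
  constructor
  · intro h i j hi hj hij hN
    have := h j i hj hi (by omega)
    rw [List.getD_eq_getElem _ _ hj, List.getD_eq_getElem _ _ hi] at this
    have := this hN
    omega
  · intro h a b ha hb hab hN
    by_contra hlt
    have := h b a hb ha (by omega)
    rw [List.getD_eq_getElem _ _ ha, List.getD_eq_getElem _ _ hb] at hN
    exact this hN

lemma avoids_of_pairwise {w : List ℕ} (hpos : ∀ x ∈ w, 1 ≤ x) (h : w.Pairwise Rel) :
    Avoids123 w := by
  rintro ⟨a, b, c, hab, hbc, hc, h1, h2⟩
  rw [List.pairwise_iff_getElem] at h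
  have ha' : a < w.length := by omega
  have hb' : b < w.length := by omega
  rw [List.getD_eq_getElem _ _ ha', List.getD_eq_getElem _ _ hb'] at h1
  rw [List.getD_eq_getElem _ _ hb', List.getD_eq_getElem _ _ hc] at h2
  have pa := hpos _ (List.getElem_mem ha')
  have pb := hpos _ (List.getElem_mem hb')
  have pc := hpos _ (List.getElem_mem hc)
  have r1 := h a b ha' hb' hab
  have r2 := h b c hb' hc hbc
  have r3 := h a c ha' hc (by omega)
  rw [Rel, NELe_two pb pa] at r1
  rw [Rel, NELe_two pc pb] at r2
  rw [Rel, NELe_two pc pa] at r3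
  omega

lemma NE123_eq (s : ℕ) : NE123 s 2 = LEs s s s := by
  classical
  ext w
  rw [mem_LEs s (s + s) s s rfl le_rfl, NE123]
  simp only [Finset.mem_filter, List.mem_toFinset, List.mem_permutations]
  rw [isLinExt_iff]
  constructor
  · rintro ⟨h1, h2, _⟩
    exact ⟨le_rfl, h1.trans (range_perm s), h2⟩
  · rintro ⟨_, h1, h2⟩
    have h3 := h1.trans (range_perm s).symm
    refine ⟨h3, h2, avoids_of_pairwise ?_ h2⟩
    intro x hx
    have := h3.mem_iff.1 hx
    rw [List.mem_range'_1] at this
    exact this.1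

lemma catalanWords_eq (s : ℕ) : catalanWords s = Ws s s := by
  ext w
  rw [mem_Ws (s + s) s s rfl, catalanWords, Finset.mem_filter, List.mem_toFinset,
    List.mem_permutations]
  constructor
  · rintro ⟨h1, h2⟩
    exact ⟨le_rfl, h1, h2⟩
  · rintro ⟨_, h1, h2⟩
    exact ⟨h1, h2⟩

lemma pp_X_ne_zero (n : ℕ) : pp (X : ℤ[X]) n ≠ 0 := by
  unfold pp
  rw [Finset.prod_ne_zero_iff]
  intro i _ h
  have := congrArg (Polynomial.eval 0) h
  simp at this

lemma ex_self (s : ℕ) : ex s s + s = s ^ 2 := by
  unfold ex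
  induction s with
  | zero => simp
  | succ n ih =>
    rw [choose_two_succ]
    nlinarith

/-- For each `s ≥ 1`, the generating function of the major index over the linear extensions
of `NE_{s,2}` that avoid `123` equals `q^{s^2}` times the one over Catalan words of length
`2s`, as polynomials with integer coefficients. -/
theorem result (s : ℕ) (_hs : 1 ≤ s) :
    ∑ w ∈ NE123 s 2, (X : ℤ[X]) ^ maj w = X ^ (s ^ 2) * ∑ w ∈ catalanWords s, X ^ maj w := by
  rw [NE123_eq, catalanWords_eq]
  have hS := S_closed (X : ℤ[X]) s (s + s) s s rfl le_rfl le_rfl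
  have hT := T_closed (X : ℤ[X]) (s + s) s s rfl le_rfl
  change S (X : ℤ[X]) s s s = X ^ (s ^ 2) * T (X : ℤ[X]) s s
  have h0 : pp (X : ℤ[X]) (s + 1) * pp (X : ℤ[X]) s ≠ 0 :=
    mul_ne_zero (pp_X_ne_zero _) (pp_X_ne_zero _)
  apply mul_left_cancel₀ h0
  rw [← ex_self, pow_add]
  rw [Nat.sub_self, pow_zero] at hS
  linear_combination hS - X ^ ex s s * X ^ s * hT

end Pool.Agent.Results.MP_1fed52_co.MajorIndexNE
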